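import Pool.Agent.H8.JS.Sys

/-!
# Nondeterministic Turing machines and spectra: targets
-/

set_option autoImplicit false

namespace Pool.Agent.H8.JS

open Pool.Agent.H69.Sp Pool.Agent.H69.Mt Pool.Agent.H16.TO Pool.Agent.H8.PL

/-! ### numbers of words -/

/-- the numbers of words -/
def J_NU : Prop := num [] = 1 ∧ (∀ x b, num (x ++ [b]) = 2 * num x + b.toNat) ∧
  (∀ x, 2 ^ x.length ≤ num x ∧ num x < 2 ^ (x.length + 1)) ∧ (∀ x y, num x = num y → x = y) ∧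
  ∀ m, 0 < m → ∃ x, num x = m

/-- the sequence of the halvings -/
def J_HS : Prop := ∀ x : List Bool, num (x.take (x.length - 0)) = num x ∧
  num (x.take (x.length - x.length)) = 1 ∧
  ∀ (p i : ℕ) (b : Bool), p + i + 1 = x.length → x[p]? = some b →
    num (x.take (x.length - i)) = 2 * num (x.take (x.length - (i + 1))) + b.toNat

/-! ### from machines to spectra -/

/-- the halvings -/
def J_HL : Prop := ∀ (x : List Bool) (U n : ℕ) (E : ℕ → List ℕ → Prop), num x < U → n < U →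
  (EncH U E 0 (num x) n ↔ n = x.length ∧ Hvs U E x)

/-- the input symbols -/
def J_EB : Prop := ∀ (x : List Bool) (U p : ℕ) (E : ℕ → List ℕ → Prop) (b : Bool), num x < U →
  Hvs U E x → p < x.length → (EncB U E x.length p b ↔ x[p]? = some b)

/-- the initial configuration -/
def J_EI : Prop := ∀ (M : NTM) (eq : M.Q → ℕ) (es : Sym M.Γ → ℕ) (x : List Bool) (U : ℕ)
  (E : ℕ → List ℕ → Prop), num x < U → Hvs U E x →
    (EncI M eq es U E 0 x.length ↔ Rep M eq es U E 0 (init M x))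

/-- one step -/
def J_ET : Prop := ∀ (M : NTM) (eq : M.Q → ℕ) (es : Sym M.Γ → ℕ) (U : ℕ)
  (E : ℕ → List ℕ → Prop) (t : ℕ) (c : Cfg M), Function.Injective eq → Function.Injective es →
    (∀ q, eq q < U) → (∀ a, es a < U) → t + 1 < U → (∀ j, c.hd j ≤ t) → Rep M eq es U E t c →
      (EncT M eq es U E t (t + 1) ↔ ∃ c', Step M c c' ∧ Rep M eq es U E (t + 1) c')

/-- the positions of the heads -/
def J_HB : Prop := ∀ (M : NTM) (x : List Bool) (l : ℕ) (c : ℕ → Cfg M), IsComp M (init M x) l c →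
  ∀ t ≤ l, ∀ j, (c t).hd j ≤ t

/-- from the relations to a computation -/
def J_ED : Prop := ∀ (M : NTM) (eq : M.Q → ℕ) (es : Sym M.Γ → ℕ) (x : List Bool) (U l : ℕ)
  (E : ℕ → List ℕ → Prop), Function.Injective eq → Function.Injective es → (∀ q, eq q < U) →
    (∀ a, es a < U) → l < U → Rep M eq es U E 0 (init M x) → EncS M eq es U E l →
      ∃ c : ℕ → Cfg M, IsComp M (init M x) l c ∧ ∀ t ≤ l, Rep M eq es U E t (c t)

/-- from a computation to the relations -/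
def J_EC : Prop := ∀ (M : NTM) (eq : M.Q → ℕ) (es : Sym M.Γ → ℕ) (x : List Bool)
  (c : ℕ → Cfg M), ∃ E : ℕ → List ℕ → Prop, ∀ U, Hvs U E x ∧ ∀ t, Rep M eq es U E t (c t)

/-- the encoding is correct -/
def J_E1 : Prop := ∀ (M : NTM) (eq : M.Q → ℕ) (es : Sym M.Γ → ℕ) (x : List Bool) (U : ℕ),
  Function.Injective eq → Function.Injective es → (∀ q, eq q < U) → (∀ a, es a < U) → num x < U →
    ((∃ E, EncP M eq es U E (num x)) ↔
      ∃ l, l < U ∧ ∃ c : ℕ → Cfg M, IsComp M (init M x) l c ∧ (c l).q = M.acc)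

/-- definability of the auxiliary conditions -/
def J_FG : Prop := (∀ (i a c : ℕ), a < 30 → FD (fun N E v => Ex1 N (fun s => E i [v a, s]) c)) ∧
  (∀ (i a b : ℕ), a < 30 → b < 30 → FD (fun N E v => Ex1 N (fun s => E i [v a, s]) (v b))) ∧
  (∀ (i a b c : ℕ), a < 30 → b < 30 →
    FD (fun N E v => Ex1 N (fun s => E i [v a, v b, s]) c)) ∧
  ∀ (d : Mv) (x y : ℕ), FD (fun _ _ v => v y = d.go (v x))

/-- definability of the halvings -/
def J_FH : Prop := FD (fun N E v => EncH N E (v 0) (v 1) (v 2))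

/-- definability of the input symbols -/
def J_FB : Prop := ∀ b : Bool, FD (fun N E v => EncB N E (v 2) (v 5) b)

/-- definability of the initial configuration -/
def J_FI : Prop := ∀ (M : NTM) (eq : M.Q → ℕ) (es : Sym M.Γ → ℕ),
  FD (fun N E v => EncI M eq es N E (v 0) (v 2))

/-- definability of a step -/
def J_FT : Prop := ∀ (M : NTM) (eq : M.Q → ℕ) (es : Sym M.Γ → ℕ),
  FD (fun N E v => EncT M eq es N E (v 6) (v 7))

/-- definability of the encoding -/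
def J_E2 : Prop := ∀ (M : NTM) (eq : M.Q → ℕ) (es : Sym M.Γ → ℕ),
  ED (fun N E v => EncP M eq es N E (v 1))

/-- from languages to spectra -/
def J_JA : Prop := ∀ L ∈ NE, IsSpectrum (num '' L)

/-! ### from spectra to machines -/

/-- transition systems related by a function -/
def J_TF : Prop := ∀ (C D : Type) (S : C → C → Prop) (S' : D → D → Prop) (A : C → Prop)
  (A' : D → Prop) (f : C → D), (∀ c d, S' (f c) d ↔ ∃ c', S c c' ∧ d = f c') →
    (∀ c, A' (f c) ↔ A c) → ∀ c, (Ac S' A' (f c) ↔ Ac S A c) ∧ ∀ T, (Ru S' (f c) T ↔ Ru S c T)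

/-- the first step -/
def J_T1 : Prop := ∀ (M : CW) (e : Prop) (x : List Bool), x ≠ [] → ∀ c,
  (Step (tm M e) (init (tm M e) x) c ↔ c = emb M e x (cinit M))

/-- the other steps -/
def J_T2 : Prop := ∀ (M : CW) (e : Prop) (x : List Bool) (c : CC M) (d : Cfg (tm M e)),
  (Step (tm M e) (emb M e x c) d ↔ ∃ c', CStep M x c c' ∧ d = emb M e x c')

/-- the empty word -/
def J_T3 : Prop := ∀ (M : CW) (e : Prop), (Acc (tm M e) [] ↔ e) ∧ Runs (tm M e) [] 1

/-- the Turing machine of a machine with counters -/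
def J_CT : Prop := ∀ (M : CW) (e : Prop) (x : List Bool), x ≠ [] →
  (Acc (tm M e) x ↔ Ac (CStep M x) (fun c => c.q = M.acc) (cinit M)) ∧
    ∀ T, Ru (CStep M x) (cinit M) T → Runs (tm M e) x (T + 1)

/-- the first control states -/
def lo {r : ℕ} {T : Type} : Pc r T → Prop
  | .ini => True
  | .rd => True
  | .dbl _ => True
  | .db2 _ => True
  | .db3 _ => True
  | .mul _ => True
  | .ad1 _ => True
  | .ad2 _ => True
  | .mv _ => True
  | _ => False

/-- the steps of the machine with counters, first control states -/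
def J_B1 : Prop := ∀ (r : ℕ) (T : Type) [Finite T] (U : Bool → Bool → Bool → Bool → T → Prop)
  (Hh Vv : T → T → Prop) (x : List Bool) (k : K5 r T) (d : CC (m5 (r := r) U Hh Vv)), lo k.q →
    (CStep (m5 U Hh Vv) x (b5 U Hh Vv k) d ↔ ∃ k', S5 U Hh Vv x k k' ∧ d = b5 U Hh Vv k')

/-- the steps of the machine with counters, other control states -/
def J_B2 : Prop := ∀ (r : ℕ) (T : Type) [Finite T] (U : Bool → Bool → Bool → Bool → T → Prop)
  (Hh Vv : T → T → Prop) (x : List Bool) (k : K5 r T) (d : CC (m5 (r := r) U Hh Vv)), ¬ lo k.q →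
    (CStep (m5 U Hh Vv) x (b5 U Hh Vv k) d ↔ ∃ k', S5 U Hh Vv x k k' ∧ d = b5 U Hh Vv k')

/-- the machine with counters -/
def J_B3 : Prop := ∀ (r : ℕ) (T : Type) [Finite T] (U : Bool → Bool → Bool → Bool → T → Prop)
  (Hh Vv : T → T → Prop) (x : List Bool),
    (Ac (CStep (m5 (r := r) U Hh Vv) x) (fun c => c.q = (m5 (r := r) U Hh Vv).acc)
      (cinit (m5 (r := r) U Hh Vv)) ↔ Ac (S5 U Hh Vv x) A5 (i5 r T)) ∧
    ∀ N, (Ru (CStep (m5 (r := r) U Hh Vv) x) (cinit (m5 (r := r) U Hh Vv)) N ↔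
      Ru (S5 U Hh Vv x) (i5 r T) N)

/-- one bit -/
def J_P0 : Prop := ∀ (r : ℕ) (T : Type) (U : Bool → Bool → Bool → Bool → T → Prop)
  (Hh Vv : T → T → Prop) (x : List Bool) (i c : ℕ) (b : Bool) (w : ℕ → Option T),
    x[i]? = some b → Ev (S5 (r := r) U Hh Vv x) A5 ⟨.rd, i, c, 0, 0, 0, 0, 0, w⟩
      ⟨.rd, i + 1, 2 * c + b.toNat, 0, 0, 0, 0, 0, w⟩ (3 * c + 4)

/-- reading the input -/
def J_P1 : Prop := ∀ (r : ℕ) (T : Type) (U : Bool → Bool → Bool → Bool → T → Prop)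
  (Hh Vv : T → T → Prop) (x : List Bool), Ev (S5 (r := r) U Hh Vv x) A5 (i5 r T)
    ⟨.rd, x.length, num x, 0, 0, 0, 0, 0, fun _ => none⟩ (8 * num x)

/-- one multiplication -/
def J_M1 : Prop := ∀ (r : ℕ) (T : Type) (U : Bool → Bool → Bool → Bool → T → Prop)
  (Hh Vv : T → T → Prop) (x : List Bool) (i c p : ℕ) (j : Fin (r + 1)) (w : ℕ → Option T),
    j ≠ 0 → Ev (S5 (r := r) U Hh Vv x) A5 ⟨.mul j, i, c, 0, p, 0, 0, 0, w⟩
      ⟨.mul (j - 1), i, c, 0, c * p, 0, 0, 0, w⟩ (3 * (c * p) + 3 * p + 2)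

/-- the power -/
def J_P2 : Prop := ∀ (r : ℕ) (T : Type) (U : Bool → Bool → Bool → Bool → T → Prop)
  (Hh Vv : T → T → Prop) (x : List Bool) (i c : ℕ) (w : ℕ → Option T), 0 < c →
    Ev (S5 (r := r) U Hh Vv x) A5 ⟨.mul (Fin.last r), i, c, 0, 1, 0, 0, 0, w⟩
      ⟨.cp1, i, c, 0, c ^ r, 0, 0, 0, w⟩ (8 * r * c ^ r + 1)

/-- the copy -/
def J_P3 : Prop := ∀ (r : ℕ) (T : Type) (U : Bool → Bool → Bool → Bool → T → Prop)
  (Hh Vv : T → T → Prop) (x : List Bool) (i c L : ℕ) (w : ℕ → Option T),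
    Ev (S5 (r := r) U Hh Vv x) A5 ⟨.cp1, i, c, 0, L, 0, 0, 0, w⟩
      ⟨.row true, i, c, 0, L, 0, L, 0, w⟩ (2 * L + 2)

/-- one cell -/
def J_C1 : Prop := ∀ (r : ℕ) (T : Type) (U : Bool → Bool → Bool → Bool → T → Prop)
  (Hh Vv : T → T → Prop) (x : List Bool) (i c p s y h : ℕ) (w : ℕ → Option T) (fr lr : Bool)
  (o : Option T),
    (Ac (S5 (r := r) U Hh Vv x) A5 ⟨.cel fr lr o, i, c, 0, p + 1, s, y, h, w⟩ ↔
      ∃ t : T, (U (decide (o = none)) (decide (p = 0)) fr lr t ∧ (∀ u, o = some u → Hh u t) ∧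
        (fr = false → ∃ u, w h = some u ∧ Vv u t)) ∧
        Ac (S5 (r := r) U Hh Vv x) A5 ⟨.cel fr lr (some t), i, c, 0, p, s + 1, y, h + 1,
          fun p' => if p' = h then some t else w p'⟩) ∧
    ∀ N, (∀ t : T, Ru (S5 (r := r) U Hh Vv x) ⟨.cel fr lr (some t), i, c, 0, p, s + 1, y, h + 1,
      fun p' => if p' = h then some t else w p'⟩ N) →
        Ru (S5 (r := r) U Hh Vv x) ⟨.cel fr lr o, i, c, 0, p + 1, s, y, h, w⟩ (N + 2)

/-- the rest of a row -/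
def J_C2 : Prop := ∀ (r : ℕ) (T : Type) (U : Bool → Bool → Bool → Bool → T → Prop)
  (Hh Vv : T → T → Prop) (x : List Bool) (i c y : ℕ) (fr lr : Bool) (a k : ℕ) (w : ℕ → Option T)
  (o : Option T), Nonempty T →
    (Ac (S5 (r := r) U Hh Vv x) A5 ⟨.cel fr lr o, i, c, 0, a, k, y, k, w⟩ ↔
      ∃ u : ℕ → T, (∀ p, k ≤ p → p < k + a → CellC U Hh Vv fr lr w o u k a p) ∧
        Ac (S5 (r := r) U Hh Vv x) A5 ⟨.bck, i, c, 0, 0, k + a, y, k + a,
          fun p => if k ≤ p ∧ p < k + a then some (u p) else w p⟩)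

/-- the running time for the rest of a row -/
def J_C3 : Prop := ∀ (r : ℕ) (T : Type) (U : Bool → Bool → Bool → Bool → T → Prop)
  (Hh Vv : T → T → Prop) (x : List Bool) (i c y : ℕ) (fr lr : Bool) (L N : ℕ),
    (∀ w, Ru (S5 (r := r) U Hh Vv x) ⟨.bck, i, c, 0, 0, L, y, L, w⟩ N) →
      ∀ (a k : ℕ) (w : ℕ → Option T) (o : Option T), k + a = L →
        Ru (S5 (r := r) U Hh Vv x) ⟨.cel fr lr o, i, c, 0, a, k, y, k, w⟩ (N + 2 * a + 1)

/-- back to the first cell -/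
def J_C4 : Prop := ∀ (r : ℕ) (T : Type) (U : Bool → Bool → Bool → Bool → T → Prop)
  (Hh Vv : T → T → Prop) (x : List Bool) (i c y L : ℕ) (w : ℕ → Option T),
    Ev (S5 (r := r) U Hh Vv x) A5 ⟨.bck, i, c, 0, 0, L, y, L, w⟩
      ⟨.row false, i, c, 0, L, 0, y, 0, w⟩ (L + 1)

/-- one row -/
def J_C5 : Prop := ∀ (r : ℕ) (T : Type) (U : Bool → Bool → Bool → Bool → T → Prop)
  (Hh Vv : T → T → Prop) (x : List Bool) (i c y L : ℕ) (fr : Bool) (w : ℕ → Option T)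
  (pr : ℕ → T), (fr = false → ∀ p < L, w p = some (pr p)) →
    (Ac (S5 (r := r) U Hh Vv x) A5 ⟨.row fr, i, c, 0, L, 0, y + 1, 0, w⟩ ↔
      ∃ u : ℕ → T, RowC U Hh Vv L fr (decide (y = 0)) pr u ∧
        Ac (S5 (r := r) U Hh Vv x) A5 ⟨.row false, i, c, 0, L, 0, y, 0,
          fun p => if p < L then some (u p) else w p⟩)

/-- the running time for one row -/
def J_C6 : Prop := ∀ (r : ℕ) (T : Type) (U : Bool → Bool → Bool → Bool → T → Prop)
  (Hh Vv : T → T → Prop) (x : List Bool) (i c y L : ℕ) (fr : Bool) (w : ℕ → Option T) (N : ℕ),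
    (∀ w', Ru (S5 (r := r) U Hh Vv x) ⟨.row false, i, c, 0, L, 0, y, 0, w'⟩ N) →
      Ru (S5 (r := r) U Hh Vv x) ⟨.row fr, i, c, 0, L, 0, y + 1, 0, w⟩ (N + (3 * L + 4))

/-- all rows -/
def J_C7 : Prop := ∀ (r : ℕ) (T : Type) (U : Bool → Bool → Bool → Bool → T → Prop)
  (Hh Vv : T → T → Prop) (x : List Bool) (i c L b : ℕ) (fr : Bool) (w : ℕ → Option T)
  (pr : ℕ → T), (fr = false → ∀ p < L, w p = some (pr p)) →
    (Ac (S5 (r := r) U Hh Vv x) A5 ⟨.row fr, i, c, 0, L, 0, b, 0, w⟩ ↔ Rem U Hh Vv L b fr pr)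

/-- the running time for all rows -/
def J_C8 : Prop := ∀ (r : ℕ) (T : Type) (U : Bool → Bool → Bool → Bool → T → Prop)
  (Hh Vv : T → T → Prop) (x : List Bool) (i c L b : ℕ) (fr : Bool) (w : ℕ → Option T),
    Ru (S5 (r := r) U Hh Vv x) ⟨.row fr, i, c, 0, L, 0, b, 0, w⟩ (b * (3 * L + 4) + 1)

/-- the remaining rows together -/
def J_G1 : Prop := ∀ (T : Type) (U : Bool → Bool → Bool → Bool → T → Prop) (Hh Vv : T → T → Prop)
  (L b : ℕ) (fr : Bool) (pr : ℕ → T), (Rem U Hh Vv L b fr pr ↔ ∃ t : ℕ → ℕ → T, ∀ k < b,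
    RowC U Hh Vv L (fr && decide (k = 0)) (decide (k + 1 = b))
      (if k = 0 then pr else fun x => t x (k - 1)) (fun x => t x k))

/-- tilings row by row -/
def J_G2 : Prop := ∀ (T : Type) (U : Bool → Bool → Bool → Bool → T → Prop) (Hh Vv : T → T → Prop)
  (L : ℕ) (pr : ℕ → T), (Rem U Hh Vv L L true pr ↔ ∃ t, GridF U Hh Vv L L t)

/-- the machine for tilings of squares -/
def J_P5 : Prop := ∀ (r : ℕ) (T : Type) (U : Bool → Bool → Bool → Bool → T → Prop)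
  (Hh Vv : T → T → Prop) (x : List Bool), Nonempty T → 0 < r →
    (Ac (S5 (r := r) U Hh Vv x) A5 (i5 r T) ↔ ∃ t, GridF U Hh Vv (num x ^ r) (num x ^ r) t) ∧
      Ru (S5 (r := r) U Hh Vv x) (i5 r T) ((8 * r + 22) * num x ^ (2 * r))

/-- the running time -/
def J_TB : Prop := ∀ (r : ℕ) (x : List Bool), x ≠ [] →
  (8 * r + 22) * num x ^ (2 * r) + 1 ≤ 2 ^ ((12 * r + 23) * x.length)

/-- from spectra to languages -/
def J_JB : Prop := ∀ S, IsSpectrum S → lang S ∈ NE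

/-! ### the correspondence -/

/-- languages and spectra -/
def J_JS : Prop := (∀ L, L ∈ NE ↔ IsSpectrum (num '' L)) ∧
  ∀ S : Set ℕ, 0 ∉ S → (lang S ∈ NE ↔ IsSpectrum S)

/-- complements -/
def J_JC : Prop := ∀ S : Set ℕ, (lang S ∈ coNE ↔ IsSpectrum (posCompl S))

/-- the question -/
def J_JQ : Prop := NE = coNE ↔ ∀ S, IsSpectrum S → IsSpectrum (posCompl S)

end Pool.Agent.H8.JS
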