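import Pool.Agent.H8.JS.Defs
import Pool.Agent.H8.PL.Sys

/-!
# Nondeterministic Turing machines and spectra: auxiliary definitions
-/

set_option autoImplicit false

namespace Pool.Agent.H8.JS

open Pool.Agent.H8.PL

instance : Finite Mv := by
  refine Finite.of_injective (β := Fin 3) (fun d => match d with | .L => 0 | .S => 1 | .R => 2) ?_
  intro a b h
  cases a <;> cases b <;> simp_all

instance {Γ : Type} [Finite Γ] : Finite (Sym Γ) := by
  refine Finite.of_injective (β := Option (Bool ⊕ Γ))
    (fun s => match s with | .bl => none | .bit b => some (.inl b) | .oth g => some (.inr g)) ?_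
  intro a b h
  cases a <;> cases b <;> simp_all

/-! ### machines with counters -/

/-- machines with a one-way input tape, `k` counters and a work tape: `δ q i z w q' adv d w' m`: state,
input symbol (`none` at the end), zero tests, work symbol; new state, the input head advances, moves of
the counters, new work symbol, move of the work head -/
structure CW : Type 1 where
  k : ℕ
  Q : Type
  A : Type
  finQ : Finite Q
  finA : Finite A
  start : Q
  acc : Q
  δ : Q → Option Bool → (Fin k → Bool) → Option A → Q → Bool → (Fin k → Mv) → Option A → Mv → Prop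
  noacc : ∀ i z w q' adv d w' m, ¬ δ acc i z w q' adv d w' m

/-- configurations -/
@[ext] structure CC (M : CW) : Type where
  q : M.Q
  i : ℕ
  n : Fin M.k → ℕ
  h : ℕ
  w : ℕ → Option M.A

/-- one step -/
def CStep (M : CW) (x : List Bool) (c c' : CC M) : Prop :=
  ∃ (adv : Bool) (d : Fin M.k → Mv) (a : Option M.A) (m : Mv),
    M.δ c.q (x[c.i]?) (fun j => decide (c.n j = 0)) (c.w c.h) c'.q adv d a m ∧
      c'.i = (if adv then c.i + 1 else c.i) ∧ (∀ j, c'.n j = (d j).go (c.n j)) ∧
      c'.h = m.go c.h ∧ ∀ p, c'.w p = if p = c.h then a else c.w p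

/-- the initial configuration -/
def cinit (M : CW) : CC M where
  q := M.start
  i := 0
  n := fun _ => 0
  h := 0
  w := fun _ => none

/-! ### runs of a transition system -/

section
variable {C : Type}

/-- some run from `c` reaches `A` -/
def Ac (S : C → C → Prop) (A : C → Prop) (c : C) : Prop :=
  ∃ (l : ℕ) (f : ℕ → C), f 0 = c ∧ (∀ i < l, S (f i) (f (i + 1))) ∧ A (f l)

/-- all runs from `c` have at most `T` steps -/
def Ru (S : C → C → Prop) (c : C) (T : ℕ) : Prop :=
  ∀ (l : ℕ) (f : ℕ → C), f 0 = c → (∀ i < l, S (f i) (f (i + 1))) → l ≤ T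

/-- `c` and `c'` are equivalent up to at most `N` additional steps -/
def Ev (S : C → C → Prop) (A : C → Prop) (c c' : C) (N : ℕ) : Prop :=
  (Ac S A c ↔ Ac S A c') ∧ ∀ T, Ru S c' T → Ru S c (N + T)

theorem ac_iff (S : C → C → Prop) (A : C → Prop) (c : C) :
    Ac S A c ↔ A c ∨ ∃ c', S c c' ∧ Ac S A c' := by
  constructor
  · rintro ⟨l, f, rfl, h1, h2⟩
    cases l with
    | zero => exact Or.inl h2
    | succ l =>
      exact Or.inr ⟨f 1, h1 0 (by omega), l, fun i => f (i + 1), rfl,
        fun i hi => h1 (i + 1) (by omega), h2⟩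
  · rintro (h | ⟨c', h, l, f, rfl, h1, h2⟩)
    · exact ⟨0, fun _ => c, rfl, fun i hi => absurd hi (by omega), h⟩
    · refine ⟨l + 1, fun i => if i = 0 then c else f (i - 1), rfl, ?_, ?_⟩
      · intro i hi
        cases i with
        | zero => simpa using h
        | succ i => simpa using h1 i (by omega)
      · simpa using h2

theorem ru_iff (S : C → C → Prop) (c : C) (T : ℕ) :
    Ru S c (T + 1) ↔ ∀ c', S c c' → Ru S c' T := by
  constructor
  · intro h c' hc l f hf h1
    have := h (l + 1) (fun i => if i = 0 then c else f (i - 1)) rfl ?_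
    · omega
    · intro i hi
      cases i with
      | zero => simpa [hf] using hc
      | succ i => simpa using h1 i (by omega)
  · rintro h l f rfl h1
    cases l with
    | zero => omega
    | succ l =>
      have := h (f 1) (h1 0 (by omega)) l (fun i => f (i + 1)) rfl
        (fun i hi => h1 (i + 1) (by omega))
      omega

theorem ru_zero (S : C → C → Prop) (c : C) : Ru S c 0 ↔ ∀ c', ¬ S c c' := by
  constructor
  · intro h c' hc
    have := h 1 (fun i => if i = 0 then c else c') rfl ?_
    · omega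
    · intro i hi
      have : i = 0 := by omega
      subst this
      simpa using hc
  · rintro h l f rfl h1
    by_contra hl
    exact h _ (h1 0 (by omega))

theorem Ru.mono {S : C → C → Prop} {c : C} {T T' : ℕ} (h : Ru S c T) (hT : T ≤ T') : Ru S c T' :=
  fun l f h1 h2 => (h l f h1 h2).trans hT

theorem Ev.refl {S : C → C → Prop} {A : C → Prop} (c : C) : Ev S A c c 0 :=
  ⟨Iff.rfl, fun T h => h.mono (by omega)⟩

theorem Ev.trans {S : C → C → Prop} {A : C → Prop} {c c' c'' : C} {N N' : ℕ}
    (h : Ev S A c c' N) (h' : Ev S A c' c'' N') : Ev S A c c'' (N + N') :=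
  ⟨h.1.trans h'.1, fun T hT => (h.2 _ (h'.2 _ hT)).mono (by omega)⟩

theorem Ev.mono {S : C → C → Prop} {A : C → Prop} {c c' : C} {N N' : ℕ}
    (h : Ev S A c c' N) (hN : N ≤ N') : Ev S A c c' N' :=
  ⟨h.1, fun T hT => (h.2 _ hT).mono (by omega)⟩

theorem acc_iff (M : NTM) (x : List Bool) :
    Acc M x ↔ Ac (Step M) (fun c => c.q = M.acc) (init M x) :=
  ⟨fun ⟨l, c, ⟨h1, h2⟩, h3⟩ => ⟨l, c, h1, h2, h3⟩, fun ⟨l, c, h1, h2, h3⟩ => ⟨l, c, ⟨h1, h2⟩, h3⟩⟩

theorem runs_iff (M : NTM) (x : List Bool) (T : ℕ) :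
    Runs M x T ↔ Ru (Step M) (init M x) T :=
  ⟨fun h l c h1 h2 => h l c ⟨h1, h2⟩, fun h l c h1 => h l c h1.1 h1.2⟩

/-- a deterministic step -/
theorem Ev.step {S : C → C → Prop} {A : C → Prop} {c c' : C} (h : ∀ d, S c d ↔ d = c')
    (hA : ¬ A c) : Ev S A c c' 1 := by
  constructor
  · rw [ac_iff]
    constructor
    · rintro (h1 | ⟨d, h1, h2⟩)
      · exact absurd h1 hA
      · rw [h] at h1
        rw [← h1]
        exact h2
    · intro h1
      exact Or.inr ⟨c', (h c').mpr rfl, h1⟩
  · intro T hT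
    rw [add_comm, ru_iff]
    intro d hd
    rw [h] at hd
    rw [hd]
    exact hT

end

/-! ### the machine for tilings of squares -/

/-- the control states -/
inductive Pc (r : ℕ) (T : Type) : Type
  | ini : Pc r T
  | rd : Pc r T
  | dbl (b : Bool) : Pc r T
  | db2 (b : Bool) : Pc r T
  | db3 (b : Bool) : Pc r T
  | mul (j : Fin (r + 1)) : Pc r T
  | ad1 (j : Fin (r + 1)) : Pc r T
  | ad2 (j : Fin (r + 1)) : Pc r T
  | mv (j : Fin (r + 1)) : Pc r T
  | cp1 : Pc r T
  | cp2 : Pc r T
  | row (fr : Bool) : Pc r T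
  | lst (fr : Bool) : Pc r T
  | cel (fr lr : Bool) (o : Option T) : Pc r T
  | put (fr lr : Bool) (o : Option T) : Pc r T
  | bck : Pc r T
  | acc : Pc r T

/-- the configurations: control state, input position, five counters, work head, work tape -/
@[ext] structure K5 (r : ℕ) (T : Type) : Type where
  q : Pc r T
  i : ℕ
  c : ℕ
  d : ℕ
  p : ℕ
  s : ℕ
  y : ℕ
  h : ℕ
  w : ℕ → Option T

section
variable {r : ℕ} {T : Type} (U : Bool → Bool → Bool → Bool → T → Prop) (Hh Vv : T → T → Prop)

/-- the steps: the counter `c` is computed from the input by doublings, `p` becomes `c ^ r`, `y` a copy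
of `p`; then the rows of a tiling are guessed on the work tape -/
def S5 (x : List Bool) (k k' : K5 r T) : Prop :=
  match k.q with
  | .ini => k' = { k with q := .rd, c := k.c + 1 }
  | .rd => (∃ b, x[k.i]? = some b ∧ k' = { k with q := .dbl b, i := k.i + 1 }) ∨
      (x[k.i]? = none ∧ k' = { k with q := .mul (Fin.last r), p := k.p + 1 })
  | .dbl b => if k.c = 0 then k' = { k with q := .db2 b }
      else k' = { k with c := k.c - 1, d := k.d + 1, s := k.s + 1 }
  | .db2 b => if k.d = 0 then k' = { k with q := .db3 b }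
      else k' = { k with d := k.d - 1, c := k.c + 1 }
  | .db3 b => if k.s = 0 then k' = { k with q := .rd, c := if b then k.c + 1 else k.c }
      else k' = { k with s := k.s - 1, c := k.c + 1 }
  | .mul j => if j = 0 then k' = { k with q := .cp1 }
      else if k.p = 0 then k' = { k with q := .mv j } else k' = { k with q := .ad1 j, p := k.p - 1 }
  | .ad1 j => if k.c = 0 then k' = { k with q := .ad2 j }
      else k' = { k with c := k.c - 1, d := k.d + 1, s := k.s + 1 }
  | .ad2 j => if k.d = 0 then k' = { k with q := .mul j }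
      else k' = { k with d := k.d - 1, c := k.c + 1 }
  | .mv j => if k.s = 0 then k' = { k with q := .mul (j - 1) }
      else k' = { k with s := k.s - 1, p := k.p + 1 }
  | .cp1 => if k.p = 0 then k' = { k with q := .cp2 }
      else k' = { k with p := k.p - 1, s := k.s + 1, y := k.y + 1 }
  | .cp2 => if k.s = 0 then k' = { k with q := .row true }
      else k' = { k with s := k.s - 1, p := k.p + 1 }
  | .row fr => if k.y = 0 then k' = { k with q := .acc }
      else k' = { k with q := .lst fr, y := k.y - 1 }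
  | .lst fr => k' = { k with q := .cel fr (decide (k.y = 0)) none }
  | .cel fr lr o => if k.p = 0 then k' = { k with q := .bck }
      else k' = { k with q := .put fr lr o, p := k.p - 1, s := k.s + 1 }
  | .put fr lr o => ∃ t : T, U (decide (o = none)) (decide (k.p = 0)) fr lr t ∧
      (∀ u, o = some u → Hh u t) ∧ (fr = false → ∃ u, k.w k.h = some u ∧ Vv u t) ∧
      k' = { k with q := .cel fr lr (some t), h := k.h + 1,
                    w := fun p => if p = k.h then some t else k.w p }
  | .bck => if k.s = 0 then k' = { k with q := .row false }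
      else k' = { k with s := k.s - 1, p := k.p + 1, h := k.h - 1 }
  | .acc => False

end

/-- finitely many control states -/
instance {r : ℕ} {T : Type} [Finite T] : Finite (Pc r T) := by
  refine Finite.of_injective (β := Fin 17 × Bool × Bool × Fin (r + 1) × Option T)
    (fun q => match q with
      | .ini => (0, false, false, 0, none)
      | .rd => (1, false, false, 0, none)
      | .dbl b => (2, b, false, 0, none)
      | .db2 b => (3, b, false, 0, none)
      | .db3 b => (4, b, false, 0, none)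
      | .mul j => (5, false, false, j, none)
      | .ad1 j => (6, false, false, j, none)
      | .ad2 j => (7, false, false, j, none)
      | .mv j => (8, false, false, j, none)
      | .cp1 => (9, false, false, 0, none)
      | .cp2 => (10, false, false, 0, none)
      | .row b => (11, b, false, 0, none)
      | .lst b => (12, b, false, 0, none)
      | .cel b b' o => (13, b, b', 0, o)
      | .put b b' o => (14, b, b', 0, o)
      | .bck => (15, false, false, 0, none)
      | .acc => (16, false, false, 0, none)) ?_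
  intro a b h
  cases a <;> cases b <;> simp_all

/-- the accepting configurations -/
def A5 {r : ℕ} {T : Type} (k : K5 r T) : Prop := k.q = .acc

/-- the initial configuration -/
def i5 (r : ℕ) (T : Type) : K5 r T := ⟨.ini, 0, 0, 0, 0, 0, 0, 0, fun _ => none⟩

/-! ### the same machine with the numbering of the counters `c, d, p, s, y` -/

section
variable {r : ℕ} {T : Type} (U : Bool → Bool → Bool → Bool → T → Prop) (Hh Vv : T → T → Prop)

/-- the transitions: state, input symbol, zero tests, work symbol, new state, the input head advances,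
moves of the counters, new work symbol, move of the work head -/
def D5 (q : Pc r T) (i : Option Bool) (z : Fin 5 → Bool) (w : Option T) (q' : Pc r T) (adv : Bool)
    (d : Fin 5 → Mv) (w' : Option T) (m : Mv) : Prop :=
  match q with
  | .ini => q' = .rd ∧ adv = false ∧ d = ![.R, .S, .S, .S, .S] ∧ w' = w ∧ m = .S
  | .rd => (∃ b, i = some b ∧ q' = .dbl b ∧ adv = true ∧ d = ![.S, .S, .S, .S, .S] ∧ w' = w ∧
      m = .S) ∨ (i = none ∧ q' = .mul (Fin.last r) ∧ adv = false ∧ d = ![.S, .S, .R, .S, .S] ∧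
        w' = w ∧ m = .S)
  | .dbl b => adv = false ∧ w' = w ∧ m = .S ∧
      if z 0 then q' = .db2 b ∧ d = ![.S, .S, .S, .S, .S]
      else q' = .dbl b ∧ d = ![.L, .R, .S, .R, .S]
  | .db2 b => adv = false ∧ w' = w ∧ m = .S ∧
      if z 1 then q' = .db3 b ∧ d = ![.S, .S, .S, .S, .S]
      else q' = .db2 b ∧ d = ![.R, .L, .S, .S, .S]
  | .db3 b => adv = false ∧ w' = w ∧ m = .S ∧
      if z 3 then q' = .rd ∧ d = ![if b then .R else .S, .S, .S, .S, .S]
      else q' = .db3 b ∧ d = ![.R, .S, .S, .L, .S]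
  | .mul j => adv = false ∧ w' = w ∧ m = .S ∧
      if j = 0 then q' = .cp1 ∧ d = ![.S, .S, .S, .S, .S]
      else if z 2 then q' = .mv j ∧ d = ![.S, .S, .S, .S, .S]
      else q' = .ad1 j ∧ d = ![.S, .S, .L, .S, .S]
  | .ad1 j => adv = false ∧ w' = w ∧ m = .S ∧
      if z 0 then q' = .ad2 j ∧ d = ![.S, .S, .S, .S, .S]
      else q' = .ad1 j ∧ d = ![.L, .R, .S, .R, .S]
  | .ad2 j => adv = false ∧ w' = w ∧ m = .S ∧
      if z 1 then q' = .mul j ∧ d = ![.S, .S, .S, .S, .S]
      else q' = .ad2 j ∧ d = ![.R, .L, .S, .S, .S]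
  | .mv j => adv = false ∧ w' = w ∧ m = .S ∧
      if z 3 then q' = .mul (j - 1) ∧ d = ![.S, .S, .S, .S, .S]
      else q' = .mv j ∧ d = ![.S, .S, .R, .L, .S]
  | .cp1 => adv = false ∧ w' = w ∧ m = .S ∧
      if z 2 then q' = .cp2 ∧ d = ![.S, .S, .S, .S, .S]
      else q' = .cp1 ∧ d = ![.S, .S, .L, .R, .R]
  | .cp2 => adv = false ∧ w' = w ∧ m = .S ∧
      if z 3 then q' = .row true ∧ d = ![.S, .S, .S, .S, .S]
      else q' = .cp2 ∧ d = ![.S, .S, .R, .L, .S]
  | .row fr => adv = false ∧ w' = w ∧ m = .S ∧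
      if z 4 then q' = .acc ∧ d = ![.S, .S, .S, .S, .S]
      else q' = .lst fr ∧ d = ![.S, .S, .S, .S, .L]
  | .lst fr => adv = false ∧ w' = w ∧ m = .S ∧ q' = .cel fr (z 4) none ∧
      d = ![.S, .S, .S, .S, .S]
  | .cel fr lr o => adv = false ∧ w' = w ∧ m = .S ∧
      if z 2 then q' = .bck ∧ d = ![.S, .S, .S, .S, .S]
      else q' = .put fr lr o ∧ d = ![.S, .S, .L, .R, .S]
  | .put fr lr o => ∃ t : T, U (decide (o = none)) (z 2) fr lr t ∧ (∀ u, o = some u → Hh u t) ∧
      (fr = false → ∃ u, w = some u ∧ Vv u t) ∧ q' = .cel fr lr (some t) ∧ adv = false ∧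
        d = ![.S, .S, .S, .S, .S] ∧ w' = some t ∧ m = .R
  | .bck => adv = false ∧ w' = w ∧
      if z 3 then q' = .row false ∧ d = ![.S, .S, .S, .S, .S] ∧ m = .S
      else q' = .bck ∧ d = ![.S, .S, .R, .L, .S] ∧ m = .L
  | .acc => False

/-- the machine with counters -/
def m5 [Finite T] : CW where
  k := 5
  Q := Pc r T
  A := T
  finQ := inferInstance
  finA := inferInstance
  start := .ini
  acc := .acc
  δ := D5 U Hh Vv
  noacc := by
    intro i z w q' adv d w' m h
    exact h

end

/-- the configurations of this machine -/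
def b5 {r : ℕ} {T : Type} [Finite T] (U : Bool → Bool → Bool → Bool → T → Prop)
    (Hh Vv : T → T → Prop) (k : K5 r T) : CC (m5 (r := r) U Hh Vv) where
  q := k.q
  i := k.i
  n := ![k.c, k.d, k.p, k.s, k.y]
  h := k.h
  w := k.w

/-! ### from machines with counters to Turing machines -/

section
variable (M : CW) (e : Prop)

/-- the symbols of the work tape -/
def wsy : Option M.A → Sym (Option M.A)
  | none => .bl
  | some a => .oth (some a)

/-- the symbols of the counters: a marker on the cell `0` -/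
def csy (b : Bool) : Sym (Option M.A) := if b then .oth none else .bl

/-- the symbols of the input -/
def isy : Option Bool → Sym (Option M.A)
  | none => .bl
  | some b => .bit b

/-- the Turing machine: tape `0` is the input, tapes `1, …, k` are the counters, tape `k + 1` is the work
tape; the first step writes the markers, or accepts the empty word if `e` -/
def tm : NTM where
  k := M.k + 1
  Q := Option M.Q
  Γ := Option M.A
  finQ := by
    have := M.finQ
    infer_instance
  finΓ := by
    have := M.finA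
    infer_instance
  start := none
  acc := some M.acc
  δ := fun q a q' a' d => match q with
    | none => (a 0 = .bl ∧ e ∧ q' = some M.acc ∧ a' = a ∧ d = fun _ => .S) ∨
        (a 0 ≠ .bl ∧ q' = some M.start ∧ (d = fun _ => .S) ∧
          a' = Fin.cons (a 0) (Fin.snoc (fun _ : Fin M.k => (csy M true : Sym (Option M.A)))
            (a (Fin.last _))))
    | some q => ∃ (q₁ : M.Q) (i : Option Bool) (z : Fin M.k → Bool) (w : Option M.A) (adv : Bool)
        (dn : Fin M.k → Mv) (w' : Option M.A) (m : Mv), M.δ q i z w q₁ adv dn w' m ∧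
          q' = some q₁ ∧ a = Fin.cons (isy M i) (Fin.snoc (fun j => csy M (z j)) (wsy M w)) ∧
          a' = Fin.cons (isy M i) (Fin.snoc (fun j => csy M (z j)) (wsy M w')) ∧
          d = Fin.cons (if adv then .R else .S) (Fin.snoc dn m)

/-- the configurations of this Turing machine -/
def emb (x : List Bool) (c : CC M) : Cfg (tm M e) where
  q := some c.q
  hd := Fin.cons c.i (Fin.snoc c.n c.h)
  tp := Fin.cons (fun p => isy M x[p]?) (Fin.snoc (fun _ : Fin M.k => fun p => csy M (decide (p = 0)))
    (fun p => wsy M (c.w p)))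

end

/-! ### the remaining rows of a tiling -/

section
variable {T : Type} (U : Bool → Bool → Bool → Bool → T → Prop) (Hh Vv : T → T → Prop)

/-- `u` may be a row of length `L`, `pr` is the previous row unless `fr` -/
def RowC (L : ℕ) (fr lr : Bool) (pr u : ℕ → T) : Prop :=
  (∀ x < L, U (decide (x = 0)) (decide (x + 1 = L)) fr lr (u x)) ∧
    (∀ x, x + 1 < L → Hh (u x) (u (x + 1))) ∧ (fr = false → ∀ x < L, Vv (pr x) (u x))

/-- the tile before the cell `p`, if the tiles of the cells `x, x + 1, …` are given by `u` -/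
def pv (o : Option T) (u : ℕ → T) (x p : ℕ) : Option T := if p = x then o else some (u (p - 1))

/-- the condition for the cell `p`, if `a` cells are missing from the cell `x` on -/
def CellC (fr lr : Bool) (w : ℕ → Option T) (o : Option T) (u : ℕ → T) (x a p : ℕ) : Prop :=
  U (decide (pv o u x p = none)) (decide (p + 1 = x + a)) fr lr (u p) ∧
    (∀ v, pv o u x p = some v → Hh v (u p)) ∧ (fr = false → ∃ v, w p = some v ∧ Vv v (u p))

/-- the `b` remaining rows can be completed -/
def Rem (L : ℕ) : ℕ → Bool → (ℕ → T) → Prop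
  | 0, _, _ => True
  | b + 1, fr, pr => ∃ u : ℕ → T, RowC U Hh Vv L fr (decide (b = 0)) pr u ∧ Rem L b false u

end

/-! ### encoding of computations by relations on `{0, …, U - 1}` -/

/-- `a` is the only element of `R` below `U` -/
def Ex1 (U : ℕ) (R : ℕ → Prop) (a : ℕ) : Prop := ∀ s, s < U → (R s ↔ s = a)

/-- relation `0` contains the halvings of `m` down to `1` (`z` is zero) -/
def EncH (U : ℕ) (E : ℕ → List ℕ → Prop) (z m n : ℕ) : Prop :=
  Ex1 U (fun s => E 0 [z, s]) m ∧ Ex1 U (fun s => E 0 [n, s]) 1 ∧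
    ∀ i, i < U → (i < n → ∃ i', i' < U ∧ ∃ h, h < U ∧ ∃ h', h' < U ∧ ∃ k, k < U ∧ (i' = i + 1 ∧
      Ex1 U (fun s => E 0 [i, s]) h ∧ Ex1 U (fun s => E 0 [i', s]) h' ∧ h' + h' = k ∧
        (h = k ∨ h = k + 1)))

section
variable (M : NTM) (eq : M.Q → ℕ) (es : Sym M.Γ → ℕ)

/-- the input symbol on the cell `p`, `n` is the length of the input -/
def EncB (U : ℕ) (E : ℕ → List ℕ → Prop) (n p : ℕ) (b : Bool) : Prop :=
  ∃ i, i < U ∧ ∃ i', i' < U ∧ ∃ h, h < U ∧ ∃ h', h' < U ∧ ∃ k, k < U ∧ (i' = i + 1 ∧ p + i' = n ∧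
    E 0 [i, h] ∧ E 0 [i', h'] ∧ h' + h' = k ∧ (b = false → h = k) ∧ (b = true → h = k + 1))

/-- relation `1`: states, relation `2 + 2 j`: positions of head `j`, relation `3 + 2 j`: inscription of
tape `j`; the initial configuration, `n` is the length of the input, `z` is zero -/
def EncI (U : ℕ) (E : ℕ → List ℕ → Prop) (z n : ℕ) : Prop :=
  Ex1 U (fun s => E 1 [z, s]) (eq M.start) ∧
    ∀ j : Fin (M.k + 1), Ex1 U (fun s => E (2 + 2 * j.1) [z, s]) 0 ∧
      ∀ p, p < U → (((j ≠ 0 ∨ n ≤ p) → Ex1 U (fun s => E (3 + 2 * j.1) [z, p, s]) (es .bl)) ∧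
        ∀ b : Bool, (j = 0 ∧ p < n ∧ EncB U E n p b) →
          Ex1 U (fun s => E (3 + 2 * j.1) [z, p, s]) (es (.bit b)))

/-- one step from the time `t` to the time `t'` -/
def EncT (U : ℕ) (E : ℕ → List ℕ → Prop) (t t' : ℕ) : Prop :=
  ∃ o : M.Q × M.Q × (Fin (M.k + 1) → Sym M.Γ) × (Fin (M.k + 1) → Sym M.Γ) × (Fin (M.k + 1) → Mv),
    M.δ o.1 o.2.2.1 o.2.1 o.2.2.2.1 o.2.2.2.2 ∧ Ex1 U (fun s => E 1 [t, s]) (eq o.1) ∧
      Ex1 U (fun s => E 1 [t', s]) (eq o.2.1) ∧
      ∀ j : Fin (M.k + 1), ∃ p, p < U ∧ ∃ p', p' < U ∧ (p' = (o.2.2.2.2 j).go p ∧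
        Ex1 U (fun s => E (2 + 2 * j.1) [t, s]) p ∧ Ex1 U (fun s => E (2 + 2 * j.1) [t', s]) p' ∧
        Ex1 U (fun s => E (3 + 2 * j.1) [t, p, s]) (es (o.2.2.1 j)) ∧
        Ex1 U (fun s => E (3 + 2 * j.1) [t', p, s]) (es (o.2.2.2.1 j)) ∧
        ∀ y, y < U → (y ≠ p → ∀ s, s < U →
          (E (3 + 2 * j.1) [t, y, s] ↔ E (3 + 2 * j.1) [t', y, s])))

/-- the steps -/
def EncS (U : ℕ) (E : ℕ → List ℕ → Prop) (l : ℕ) : Prop :=
  ∀ t, t < U → (t < l → ∃ t', t' < U ∧ (t' = t + 1 ∧ EncT M eq es U E t t'))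

/-- an accepting computation on the input with the number `m` -/
def EncP (U : ℕ) (E : ℕ → List ℕ → Prop) (m : ℕ) : Prop :=
  ∃ z, z < U ∧ ∃ n, n < U ∧ ∃ l, l < U ∧ (z = 0 ∧ EncH U E z m n ∧ EncI M eq es U E z n ∧
    EncS M eq es U E l ∧ Ex1 U (fun s => E 1 [l, s]) (eq M.acc))

/-- the relations at the time `t` describe the configuration `c` -/
def Rep (U : ℕ) (E : ℕ → List ℕ → Prop) (t : ℕ) (c : Cfg M) : Prop :=
  Ex1 U (fun s => E 1 [t, s]) (eq c.q) ∧ ∀ j : Fin (M.k + 1),
    Ex1 U (fun s => E (2 + 2 * j.1) [t, s]) (c.hd j) ∧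
      ∀ p, p < U → Ex1 U (fun s => E (3 + 2 * j.1) [t, p, s]) (es (c.tp j p))

/-- the relations describe the halvings of `num x` -/
def Hvs (U : ℕ) (E : ℕ → List ℕ → Prop) (x : List Bool) : Prop :=
  ∀ i ≤ x.length, Ex1 U (fun s => E 0 [i, s]) (num (x.take (x.length - i)))

end

end Pool.Agent.H8.JS
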