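import Mathlib

/-!
# Nondeterministic Turing machines and the class NE

Multitape machines with tapes which are infinite to the right (a head which moves left on the first
cell stays there); the input is on the first tape.
-/

set_option autoImplicit false

namespace Pool.Agent.H8.JS

/-- Tape symbols: the blank, the two input symbols, further symbols. -/
inductive Sym (Γ : Type) : Type
  | bl : Sym Γ
  | bit (b : Bool) : Sym Γ
  | oth (g : Γ) : Sym Γ

/-- A head moves to the left, stays, or moves to the right. -/
inductive Mv : Type
  | L : Mv
  | S : Mv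
  | R : Mv

/-- The new position of a head; on the cell `0` it does not move to the left. -/
def Mv.go : Mv → ℕ → ℕ
  | .L, p => p - 1
  | .S, p => p
  | .R, p => p + 1

/-- A nondeterministic Turing machine with `k + 1` tapes: finitely many states and symbols, a start
state, an accepting state, and the transition relation `δ q a q' a' d` (in the state `q`, when the
heads read the symbols `a`, the machine may change to the state `q'`, write the symbols `a'`, and move
the heads by `d`). -/
structure NTM : Type 1 where
  k : ℕ
  Q : Type
  Γ : Type
  finQ : Finite Q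
  finΓ : Finite Γ
  start : Q
  acc : Q
  δ : Q → (Fin (k + 1) → Sym Γ) → Q → (Fin (k + 1) → Sym Γ) → (Fin (k + 1) → Mv) → Prop

/-- A configuration: state, positions of the heads, tape inscriptions. -/
@[ext] structure Cfg (M : NTM) : Type where
  q : M.Q
  hd : Fin (M.k + 1) → ℕ
  tp : Fin (M.k + 1) → ℕ → Sym M.Γ

/-- One step. -/
def Step (M : NTM) (c c' : Cfg M) : Prop :=
  ∃ (a' : Fin (M.k + 1) → Sym M.Γ) (d : Fin (M.k + 1) → Mv),
    M.δ c.q (fun j => c.tp j (c.hd j)) c'.q a' d ∧ (∀ j, c'.hd j = (d j).go (c.hd j)) ∧
      ∀ j p, c'.tp j p = if p = c.hd j then a' j else c.tp j p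

/-- The initial configuration: the input `x` is on the first cells of the tape `0`, everything else is
blank, and all heads are on the cell `0`. -/
def init (M : NTM) (x : List Bool) : Cfg M where
  q := M.start
  hd := fun _ => 0
  tp := fun j p => if j = 0 then (match x[p]? with
    | some b => .bit b
    | none => .bl) else .bl

/-- `c 0, …, c l` is a computation which starts with `c₀` -/
def IsComp (M : NTM) (c₀ : Cfg M) (l : ℕ) (c : ℕ → Cfg M) : Prop :=
  c 0 = c₀ ∧ ∀ i < l, Step M (c i) (c (i + 1))

/-- The machine accepts `x`: some computation reaches the accepting state. -/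
def Acc (M : NTM) (x : List Bool) : Prop :=
  ∃ (l : ℕ) (c : ℕ → Cfg M), IsComp M (init M x) l c ∧ (c l).q = M.acc

/-- All computations on the input `x` have at most `T` steps. -/
def Runs (M : NTM) (x : List Bool) (T : ℕ) : Prop :=
  ∀ (l : ℕ) (c : ℕ → Cfg M), IsComp M (init M x) l c → l ≤ T

/-- The languages accepted by nondeterministic machines which run in time `t n` on the inputs of
length `n`. -/
def NTIME (t : ℕ → ℕ) : Set (Set (List Bool)) :=
  {L | ∃ M : NTM, ∀ x, Runs M x (t x.length) ∧ (x ∈ L ↔ Acc M x)}

/-- `NE`, nondeterministic exponential time with linear exponent. -/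
def NE : Set (Set (List Bool)) := {L | ∃ c, 0 < c ∧ L ∈ NTIME (fun n => 2 ^ (c * n))}

/-- The complements of the languages in `NE`. -/
def coNE : Set (Set (List Bool)) := {L | Lᶜ ∈ NE}

/-- The number with the binary representation `1 x`. -/
def num (x : List Bool) : ℕ := x.foldl (fun n b => 2 * n + b.toNat) 1

/-- The language of the words whose numbers are in `X`. -/
def lang (X : Set ℕ) : Set (List Bool) := {x | num x ∈ X}

/-- The language of `X` is in `NE`, and every language in `NE` is reduced to it by a polynomial map on
the numbers of the words. -/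
def NEComplete (X : Set ℕ) : Prop :=
  lang X ∈ NE ∧ ∀ L ∈ NE, ∃ p : Polynomial ℤ, ∀ x : List Bool, ∃ y : List Bool,
    (num y : ℤ) = p.eval (num x : ℤ) ∧ (x ∈ L ↔ y ∈ lang X)

end Pool.Agent.H8.JS
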