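import Pool.Agent.H8.JS.Fin
import Pool.Agent.H8.UN.All
import Pool.Agent.H33.JS.NU
import Pool.Agent.H56.JS.HS
import Pool.Agent.H65.JS.HL
import Pool.Agent.H6.JS.EB
import Pool.Agent.H77.JS.ET
import Pool.Agent.H77.JS.HB
import Pool.Agent.H1.JS.ED
import Pool.Agent.H63.JS.EC
import Pool.Agent.H86.JS.E1
import Pool.Agent.H91.JS.FG
import Pool.Agent.H63.JS.FH
import Pool.Agent.H63.JS.FB
import Pool.Agent.H54.JS.FI
import Pool.Agent.H60.JS.FT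
import Pool.Agent.H50.JS.E2
import Pool.Agent.H90.JS.JA
import Pool.Agent.H77.JS.TF
import Pool.Agent.H77.JS.T1
import Pool.Agent.H51.JS.T2
import Pool.Agent.H1.JS.T3
import Pool.Agent.H3.JS.CT
import Pool.Agent.H91.JS.B1
import Pool.Agent.H35.JS.B2
import Pool.Agent.H22.JS.B3
import Pool.Agent.H69.JS.P0
import Pool.Agent.H86.JS.P1
import Pool.Agent.H90.JS.M1
import Pool.Agent.H22.JS.P2
import Pool.Agent.H32.JS.P3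
import Pool.Agent.H3.JS.C1
import Pool.Agent.H90.JS.C2
import Pool.Agent.H77.JS.C3
import Pool.Agent.H86.JS.C4
import Pool.Agent.H34.JS.C5
import Pool.Agent.H64.JS.C6
import Pool.Agent.H3.JS.C7
import Pool.Agent.H64.JS.C8
import Pool.Agent.H77.JS.G1
import Pool.Agent.H22.JS.G2
import Pool.Agent.H32.JS.P5
import Pool.Agent.H22.JS.TB
import Pool.Agent.H34.JS.JB
import Pool.Agent.H3.JS.JS
import Pool.Agent.H89.JS.JC
import Pool.Agent.H22.JS.JQ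

/-!
# Nondeterministic Turing machines and spectra: everything
-/

set_option autoImplicit false

namespace Pool.Agent.H8.JS

open Pool.Agent.H69.Sp Pool.Agent.H69.Mt Pool.Agent.H16.TO Pool.Agent.H8.PL Pool.Agent.H8.PU
open Pool.Agent.H8.DI

theorem j_nu : J_NU := H33.JS.pf_nu
theorem j_hs : J_HS := H56.JS.pf_hs j_nu
theorem j_hl : J_HL := H65.JS.pf_hl j_nu j_hs
theorem j_eb : J_EB := H6.JS.pf_eb j_nu j_hs
theorem j_ei : J_EI := H65.JS.pf_ei j_nu j_eb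
theorem j_ed : J_ED := H1.JS.pf_ed H77.JS.pf_et H77.JS.pf_hb
theorem j_e1 : J_E1 := H86.JS.pf_e1 j_nu j_hl j_ei H77.JS.pf_et H77.JS.pf_hb j_ed H63.JS.pf_ec
theorem j_fg : J_FG := H91.JS.pf_fg
theorem j_e2 : J_E2 := H50.JS.pf_e2 j_fg (H63.JS.pf_fh j_fg) (H54.JS.pf_fi j_fg H63.JS.pf_fb)
  (H60.JS.pf_ft j_fg)
theorem j_ja : J_JA := H90.JS.pf_ja j_nu j_e1 j_e2
theorem j_ct : J_CT := H3.JS.pf_ct H77.JS.pf_tf H77.JS.pf_t1 H51.JS.pf_t2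
theorem j_b3 : J_B3 := H22.JS.pf_b3 H77.JS.pf_tf H91.JS.pf_b1 H35.JS.pf_b2
theorem j_p1 : J_P1 := H86.JS.pf_p1 j_nu H69.JS.pf_p0
theorem j_p2 : J_P2 := H22.JS.pf_p2 H90.JS.pf_m1
theorem j_c2 : J_C2 := H90.JS.pf_c2 H3.JS.pf_c1
theorem j_c3 : J_C3 := H77.JS.pf_c3 H3.JS.pf_c1
theorem j_c5 : J_C5 := H34.JS.pf_c5 j_c2 H86.JS.pf_c4
theorem j_c6 : J_C6 := H64.JS.pf_c6 j_c3 H86.JS.pf_c4
theorem j_c7 : J_C7 := H3.JS.pf_c7 j_c5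
theorem j_c8 : J_C8 := H64.JS.pf_c8 j_c6
theorem j_g2 : J_G2 := H22.JS.pf_g2 H77.JS.pf_g1
theorem j_p5 : J_P5 := H32.JS.pf_p5 j_nu j_p1 j_p2 H32.JS.pf_p3 j_c7 j_c8 j_g2
theorem j_tb : J_TB := H22.JS.pf_tb j_nu
theorem j_jb : J_JB := H34.JS.pf_jb z_sq j_nu H1.JS.pf_t3 j_ct j_b3 j_p5 j_tb
theorem j_js : J_JS := H3.JS.pf_js j_nu j_ja j_jb
theorem j_jc : J_JC := H89.JS.pf_jc j_nu j_js
theorem j_jq : J_JQ := H22.JS.pf_jq j_nu j_js j_jc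

theorem ne_of (X : Set ℕ) (h : H51.UN.Complete X) : NEComplete X ∧ (lang X ∈ coNE ↔ NE = coNE) :=
  ne_complete j_nu j_ja j_jb j_jc j_jq X h

theorem v_1 : ∀ (l : ℕ) (τ : ℕ → Kd) (φ : C2),
    lang (specK l τ φ) ∈ NE ∧ (l ≤ 1 → lang (specK l τ φ) ∈ coNE) := fun l τ φ =>
  ⟨j_jb _ (pf_sk l τ φ), fun hl => (j_jc _).mpr ((Pool.Agent.H8.UN.k_di l τ).1 hl φ)⟩

theorem v_2 : ∀ (l : ℕ) (τ : ℕ → Kd), 2 ≤ l → ∃ φ : C2,
    NEComplete (specK l τ φ) ∧ (lang (specK l τ φ) ∈ coNE ↔ NE = coNE) := by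
  intro l τ hl
  obtain ⟨φ, h⟩ := H51.UN.complete_specK l τ hl
  exact ⟨φ, ne_of _ h⟩

theorem v_3 : ∃ φ : C2, φ.NoCount ∧ φ.BinLt 4 ∧
    NEComplete (specS φ) ∧ (lang (specS φ) ∈ coNE ↔ NE = coNE) := by
  obtain ⟨φ, h1, h2, h⟩ := H51.UN.complete_specS
  exact ⟨φ, h1, h2, ne_of _ h⟩

theorem v_4 : ∀ φ : G2, lang (specPl φ) ∈ NE := fun φ => j_jb _ (y_sp φ)

theorem v_5 : ∃ φ : G2, NEComplete (specPl φ) ∧ (lang (specPl φ) ∈ coNE ↔ NE = coNE) := by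
  obtain ⟨φ, h⟩ := H51.UN.complete_specPl
  exact ⟨φ, ne_of _ h⟩

end Pool.Agent.H8.JS
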