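import Pool.Agent.H35.JS.B2

/-!
# Row B1: the steps of the machine with counters, first control states
-/

set_option autoImplicit false

namespace Pool.Agent.H8.JS

open Pool.Agent.H69.Sp Pool.Agent.H69.Mt Pool.Agent.H16.TO Pool.Agent.H8.PL Pool.Agent.H35.JS

theorem pf_b1 : J_B1 := by
  intro r T _ U Hh Vv x k D hlo
  have hw0 : ∀ p, k.w p = if p = k.h then k.w k.h else k.w p := by
    intro p
    split_ifs with hp
    · rw [hp]
    · rfl
  rcases k with ⟨q, i, c, d, p, s, y, h, w⟩
  cases q with
  | cp1 => exact hlo.elim
  | cp2 => exact hlo.elim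
  | row _ => exact hlo.elim
  | lst _ => exact hlo.elim
  | cel _ _ _ => exact hlo.elim
  | put _ _ _ => exact hlo.elim
  | bck => exact hlo.elim
  | acc => exact hlo.elim
  | ini =>
    simp only [S5, exists_eq_left]
    refine det U Hh Vv x _ _ D false ![.R, .S, .S, .S, .S] (w h) .S ?_ rfl rfl rfl rfl rfl rfl
      rfl hw0
    intro q' adv' d' a' m'
    simp only [D5]
  | rd =>
    cases hx : x[i]? with
    | none =>
      have e : (∃ k', S5 U Hh Vv x ⟨.rd, i, c, d, p, s, y, h, w⟩ k' ∧ D = b5 U Hh Vv k') ↔
          D = b5 U Hh Vv ⟨.mul (Fin.last r), i, c, d, p + 1, s, y, h, w⟩ := by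
        simp [S5, hx]
      rw [e]
      refine det U Hh Vv x _ _ D false ![.S, .S, .R, .S, .S] (w h) .S ?_ rfl rfl rfl rfl rfl rfl
        rfl hw0
      intro q' adv' d' a' m'
      simp only [D5]
      simp [hx]
    | some b =>
      have e : (∃ k', S5 U Hh Vv x ⟨.rd, i, c, d, p, s, y, h, w⟩ k' ∧ D = b5 U Hh Vv k') ↔
          D = b5 U Hh Vv ⟨.dbl b, i + 1, c, d, p, s, y, h, w⟩ := by
        simp [S5, hx]
      rw [e]
      refine det U Hh Vv x _ _ D true ![.S, .S, .S, .S, .S] (w h) .S ?_ rfl rfl rfl rfl rfl rfl
        rfl hw0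
      intro q' adv' d' a' m'
      simp only [D5]
      simp [hx]
  | dbl b =>
    by_cases hz : c = 0
    · simp only [S5, hz, if_true, exists_eq_left]
      refine det U Hh Vv x _ _ D false ![.S, .S, .S, .S, .S] (w h) .S ?_ rfl rfl rfl rfl rfl rfl
        rfl hw0
      intro q' adv' d' a' m'
      simp only [D5]
      simp
      tauto
    · simp only [S5, hz, if_false, exists_eq_left]
      refine det U Hh Vv x _ _ D false ![.L, .R, .S, .R, .S] (w h) .S ?_ rfl rfl rfl rfl rfl rfl
        rfl hw0
      intro q' adv' d' a' m'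
      simp only [D5]
      simp [hz]
      tauto
  | db2 b =>
    by_cases hz : d = 0
    · simp only [S5, hz, if_true, exists_eq_left]
      refine det U Hh Vv x _ _ D false ![.S, .S, .S, .S, .S] (w h) .S ?_ rfl rfl rfl rfl rfl rfl
        rfl hw0
      intro q' adv' d' a' m'
      simp only [D5]
      simp
      tauto
    · simp only [S5, hz, if_false, exists_eq_left]
      refine det U Hh Vv x _ _ D false ![.R, .L, .S, .S, .S] (w h) .S ?_ rfl rfl rfl rfl rfl rfl
        rfl hw0
      intro q' adv' d' a' m'
      simp only [D5]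
      simp [hz]
      tauto
  | db3 b =>
    by_cases hz : s = 0
    · cases b
      · simp only [S5, hz, if_true, exists_eq_left]
        refine det U Hh Vv x _ _ D false ![.S, .S, .S, .S, .S] (w h) .S ?_ rfl rfl rfl rfl rfl rfl
          rfl hw0
        intro q' adv' d' a' m'
        simp only [D5]
        simp
        tauto
      · simp only [S5, hz, if_true, exists_eq_left]
        refine det U Hh Vv x _ _ D false ![.R, .S, .S, .S, .S] (w h) .S ?_ rfl rfl rfl rfl rfl rfl
          rfl hw0
        intro q' adv' d' a' m'
        simp only [D5]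
        simp
        tauto
    · simp only [S5, hz, if_false, exists_eq_left]
      refine det U Hh Vv x _ _ D false ![.R, .S, .S, .L, .S] (w h) .S ?_ rfl rfl rfl rfl rfl rfl
        rfl hw0
      intro q' adv' d' a' m'
      simp only [D5]
      simp [hz]
      tauto
  | mul j =>
    by_cases hj : j = 0
    · simp only [S5, hj, if_true, exists_eq_left]
      refine det U Hh Vv x _ _ D false ![.S, .S, .S, .S, .S] (w h) .S ?_ rfl rfl rfl rfl rfl rfl
        rfl hw0
      intro q' adv' d' a' m'
      simp only [D5]
      simp
      tauto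
    · by_cases hz : p = 0
      · simp only [S5, hj, hz, if_false, if_true, exists_eq_left]
        refine det U Hh Vv x _ _ D false ![.S, .S, .S, .S, .S] (w h) .S ?_ rfl rfl rfl rfl rfl rfl
          rfl hw0
        intro q' adv' d' a' m'
        simp only [D5]
        simp [hj]
        tauto
      · simp only [S5, hj, hz, if_false, exists_eq_left]
        refine det U Hh Vv x _ _ D false ![.S, .S, .L, .S, .S] (w h) .S ?_ rfl rfl rfl rfl rfl rfl
          rfl hw0
        intro q' adv' d' a' m'
        simp only [D5]
        simp [hj, hz]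
        tauto
  | ad1 j =>
    by_cases hz : c = 0
    · simp only [S5, hz, if_true, exists_eq_left]
      refine det U Hh Vv x _ _ D false ![.S, .S, .S, .S, .S] (w h) .S ?_ rfl rfl rfl rfl rfl rfl
        rfl hw0
      intro q' adv' d' a' m'
      simp only [D5]
      simp
      tauto
    · simp only [S5, hz, if_false, exists_eq_left]
      refine det U Hh Vv x _ _ D false ![.L, .R, .S, .R, .S] (w h) .S ?_ rfl rfl rfl rfl rfl rfl
        rfl hw0
      intro q' adv' d' a' m'
      simp only [D5]
      simp [hz]
      tauto
  | ad2 j =>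
    by_cases hz : d = 0
    · simp only [S5, hz, if_true, exists_eq_left]
      refine det U Hh Vv x _ _ D false ![.S, .S, .S, .S, .S] (w h) .S ?_ rfl rfl rfl rfl rfl rfl
        rfl hw0
      intro q' adv' d' a' m'
      simp only [D5]
      simp
      tauto
    · simp only [S5, hz, if_false, exists_eq_left]
      refine det U Hh Vv x _ _ D false ![.R, .L, .S, .S, .S] (w h) .S ?_ rfl rfl rfl rfl rfl rfl
        rfl hw0
      intro q' adv' d' a' m'
      simp only [D5]
      simp [hz]
      tauto
  | mv j =>
    by_cases hz : s = 0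
    · simp only [S5, hz, if_true, exists_eq_left]
      refine det U Hh Vv x _ _ D false ![.S, .S, .S, .S, .S] (w h) .S ?_ rfl rfl rfl rfl rfl rfl
        rfl hw0
      intro q' adv' d' a' m'
      simp only [D5]
      simp
      tauto
    · simp only [S5, hz, if_false, exists_eq_left]
      refine det U Hh Vv x _ _ D false ![.S, .S, .R, .L, .S] (w h) .S ?_ rfl rfl rfl rfl rfl rfl
        rfl hw0
      intro q' adv' d' a' m'
      simp only [D5]
      simp [hz]
      tauto

end Pool.Agent.H8.JS
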