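import Pool.Agent.H8.JS.Targets
import Pool.Agent.H69.Sp.Per

/-!
# Row FG: definability of auxiliary conditions
-/

set_option autoImplicit false

namespace Pool.Agent.H8.JS

open Pool.Agent.H69.Sp Pool.Agent.H69.Mt Pool.Agent.H16.TO Pool.Agent.H8.PL

theorem pf_fg : J_FG := by
  refine ⟨fun i a c ha => ?_, fun i a b ha hb => ?_, fun i a b c ha hb => ?_, fun d x y => ?_⟩
  · refine (FD.all 30 ((FD.par i [a, 30]).iff (FD.num c 30))).congr fun N E v hv => ?_
    have h1 : a ≠ 30 := by omega
    simp only [Ex1, Function.update_self, Function.update_of_ne, ne_eq, h1, not_false_eq_true,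
      List.map_cons, List.map_nil]
  · refine (FD.all 30 ((FD.par i [a, 30]).iff (FD.eq 30 b))).congr fun N E v hv => ?_
    have h1 : a ≠ 30 := by omega
    have h2 : b ≠ 30 := by omega
    simp only [Ex1, Function.update_self, Function.update_of_ne, ne_eq, h1, h2, not_false_eq_true,
      List.map_cons, List.map_nil]
  · refine (FD.all 30 ((FD.par i [a, b, 30]).iff (FD.num c 30))).congr fun N E v hv => ?_
    have h1 : a ≠ 30 := by omega
    have h2 : b ≠ 30 := by omega
    simp only [Ex1, Function.update_self, Function.update_of_ne, ne_eq, h1, h2, not_false_eq_true,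
      List.map_cons, List.map_nil]
  · cases d with
    | L =>
      refine (((FD.num 0 x).and (FD.num 0 y)).or (FD.succ y x)).congr fun N E v hv => ?_
      simp only [Mv.go]
      omega
    | S =>
      refine (FD.eq y x).congr fun N E v hv => ?_
      simp only [Mv.go]
    | R =>
      refine (FD.succ x y).congr fun N E v hv => ?_
      simp only [Mv.go]

end Pool.Agent.H8.JS
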