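import Pool.Agent.H8.JS.Targets
import Pool.Agent.H51.UN.Complete

/-!
# Complete spectra and NE
-/

set_option autoImplicit false

namespace Pool.Agent.H8.JS

open Pool.Agent.H69.Sp Pool.Agent.H69.Mt Pool.Agent.H16.TO Pool.Agent.H8.PL

theorem num_pos (hNU : J_NU) (x : List Bool) : 0 < num x :=
  lt_of_lt_of_le (Nat.two_pow_pos _) (hNU.2.2.1 x).1

theorem ne_complete (hNU : J_NU) (hJA : J_JA) (hJB : J_JB) (hJC : J_JC) (hJQ : J_JQ) (X : Set ℕ)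
    (h : H51.UN.Complete X) : NEComplete X ∧ (lang X ∈ coNE ↔ NE = coNE) := by
  obtain ⟨h1, h2, h3⟩ := h
  refine ⟨⟨hJB X h1, fun L hL => ?_⟩, ?_⟩
  · obtain ⟨p, hp⟩ := h2 (num '' L) (hJA L hL)
    refine ⟨p, fun x => ?_⟩
    obtain ⟨m, e, h4, h5⟩ := hp (num x) (num_pos hNU x)
    obtain ⟨y, rfl⟩ := hNU.2.2.2.2 m (lt_of_lt_of_le (num_pos hNU x) h4)
    refine ⟨y, e, ?_⟩
    have h6 : num x ∈ num '' L ↔ x ∈ L :=
      ⟨fun ⟨x', h7, h8⟩ => hNU.2.2.2.1 _ _ h8 ▸ h7, fun h7 => ⟨x, h7, rfl⟩⟩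
    rw [← h6, h5]
    rfl
  · exact (hJC X).trans (h3.trans hJQ.symm)

end Pool.Agent.H8.JS
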